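import Mathlib
import Pool.Agent.Lib.MP_d25c28_al.Cube

/-!
Almost symmetric numerical semigroups of embedding dimension exactly 8 and type 2N+1,
stated with the conventions of the problem file (integers, two-sided almost symmetry).
-/

set_option autoImplicit false

namespace Pool.Agent.Results.MP_d25c28_al.EdimEight

open Pool.Agent.Lib.MP_d25c28_al

/-- The integer `x` belongs to `Γ`. -/
def Mem (Γ : AddSubmonoid ℕ) (x : ℤ) : Prop := ∃ s ∈ Γ, (s : ℤ) = x

/-- `F` is the largest integer not in `Γ`. -/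
def IsFrob (Γ : AddSubmonoid ℕ) (F : ℤ) : Prop := IsGreatest {x : ℤ | ¬ Mem Γ x} F

/-- `x` is a pseudo-Frobenius number of `Γ`. -/
def IsPF (Γ : AddSubmonoid ℕ) (x : ℤ) : Prop := ¬ Mem Γ x ∧ ∀ s ∈ Γ, s ≠ 0 → Mem Γ (x + s)

/-- `Γ` is almost symmetric. -/
def AlmostSymmetric (Γ : AddSubmonoid ℕ) : Prop :=
  ∃ F : ℤ, IsFrob Γ F ∧
    ∀ x : ℤ, ¬ Mem Γ x → Mem Γ (F - x) ∨ (IsPF Γ x ∧ IsPF Γ (F - x))

/-- `G` is a minimal generating set of `Γ`. -/
def IsMinGen (Γ : AddSubmonoid ℕ) (G : Finset ℕ) : Prop :=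
  AddSubmonoid.closure (G : Set ℕ) = Γ ∧
    ∀ G' : Finset ℕ, G' ⊂ G → AddSubmonoid.closure (G' : Set ℕ) ≠ Γ

/-- The eight numbers `g + e₁ d₁ + e₂ d₂ + e₃`, `eᵢ ∈ {0, 1}`, with `g = 2N³ + 2N² + N`,
`d₁ = 2N² + 2N`, `d₂ = 2N + 1`. -/
def gens (N : ℕ) : Finset ℕ :=
  (Finset.univ : Finset (Fin 2 × Fin 2 × Fin 2)).image fun e =>
    (2 * N ^ 3 + 2 * N ^ 2 + N) + e.1 * (2 * N ^ 2 + 2 * N) + e.2.1 * (2 * N + 1) + e.2.2

theorem gen_cast (N : ℕ) (e : Fin 2 × Fin 2 × Fin 2) :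
    (((2 * N ^ 3 + 2 * N ^ 2 + N) + e.1 * (2 * N ^ 2 + 2 * N) + e.2.1 * (2 * N + 1) + e.2.2 : ℕ) : ℤ)
      = val N 1 (e.1 : ℕ) (e.2.1 : ℕ) (e.2.2 : ℕ) := by
  push_cast
  simp only [val]
  ring

theorem mem_closure_of (N : ℕ) (h : ℕ) : ∀ a b c : ℕ, a ≤ h → b ≤ h → c ≤ h →
    h * (2 * N ^ 3 + 2 * N ^ 2 + N) + a * (2 * N ^ 2 + 2 * N) + b * (2 * N + 1) + c ∈
      AddSubmonoid.closure (gens N : Set ℕ) := by
  induction h with
  | zero =>
    intro a b c ha hb hc
    obtain rfl : a = 0 := by omega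
    obtain rfl : b = 0 := by omega
    obtain rfl : c = 0 := by omega
    simp
  | succ h ih =>
    intro a b c ha hb hc
    have h1 := ih (a - min a 1) (b - min b 1) (c - min c 1) (by omega) (by omega) (by omega)
    have h2 : (2 * N ^ 3 + 2 * N ^ 2 + N) + min a 1 * (2 * N ^ 2 + 2 * N) + min b 1 * (2 * N + 1)
        + min c 1 ∈ AddSubmonoid.closure (gens N : Set ℕ) := by
      apply AddSubmonoid.subset_closure
      simp only [gens, Finset.coe_image, Finset.coe_univ, Set.image_univ, Set.mem_range]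
      exact ⟨(⟨min a 1, by omega⟩, ⟨min b 1, by omega⟩, ⟨min c 1, by omega⟩), rfl⟩
    have h3 := AddSubmonoid.add_mem _ h1 h2
    obtain ⟨a', ha'⟩ : ∃ a', a = a' + min a 1 := ⟨a - min a 1, by omega⟩
    obtain ⟨b', hb'⟩ : ∃ b', b = b' + min b 1 := ⟨b - min b 1, by omega⟩
    obtain ⟨c', hc'⟩ : ∃ c', c = c' + min c 1 := ⟨c - min c 1, by omega⟩
    have ea : a - min a 1 = a' := by omega
    have eb : b - min b 1 = b' := by omega
    have ec : c - min c 1 = c' := by omega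
    rw [ea, eb, ec] at h3
    generalize min a 1 = a'' at *
    generalize min b 1 = b'' at *
    generalize min c 1 = c'' at *
    subst ha' hb' hc'
    have e : (h + 1) * (2 * N ^ 3 + 2 * N ^ 2 + N) + (a' + a'') * (2 * N ^ 2 + 2 * N) +
        (b' + b'') * (2 * N + 1) + (c' + c'') =
        h * (2 * N ^ 3 + 2 * N ^ 2 + N) + a' * (2 * N ^ 2 + 2 * N) + b' * (2 * N + 1) + c' +
        (2 * N ^ 3 + 2 * N ^ 2 + N + a'' * (2 * N ^ 2 + 2 * N) + b'' * (2 * N + 1) + c'') := by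
      ring
    rw [e]
    exact h3

theorem mem_iff (N : ℕ) (x : ℤ) :
    Mem (AddSubmonoid.closure (gens N : Set ℕ)) x ↔ InS N x := by
  constructor
  · rintro ⟨s, hs, rfl⟩
    induction hs using AddSubmonoid.closure_induction with
    | mem y hy =>
      simp only [gens, Finset.coe_image, Finset.coe_univ, Set.image_univ, Set.mem_range] at hy
      obtain ⟨e, rfl⟩ := hy
      rw [gen_cast]
      refine ⟨1, _, _, _, ?_, rfl⟩
      have h1 := e.1.2
      have h2 := e.2.1.2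
      have h3 := e.2.2.2
      simp only [InQ]
      omega
    | zero => simpa using inS_zero N
    | add y z _ _ hy hz =>
      push_cast
      exact inS_add hy hz
  · rintro ⟨h, a, b, c, ⟨h1, h2, h3, h4, h5, h6⟩, rfl⟩
    obtain ⟨h, rfl⟩ := Int.eq_ofNat_of_zero_le (show 0 ≤ h by omega)
    obtain ⟨a, rfl⟩ := Int.eq_ofNat_of_zero_le h1
    obtain ⟨b, rfl⟩ := Int.eq_ofNat_of_zero_le h3
    obtain ⟨c, rfl⟩ := Int.eq_ofNat_of_zero_le h5
    refine ⟨_, mem_closure_of N h a b c (by omega) (by omega) (by omega), ?_⟩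
    push_cast
    simp only [val]
    ring

theorem gens_bounds {N : ℕ} (hN : 2 ≤ N) {y : ℕ} (hy : y ∈ gens N) :
    2 * N ^ 3 + 2 * N ^ 2 + N ≤ y ∧ y < 2 * (2 * N ^ 3 + 2 * N ^ 2 + N) := by
  simp only [gens, Finset.mem_image, Finset.mem_univ, true_and] at hy
  obtain ⟨⟨a, b, c⟩, rfl⟩ := hy
  have h3 : 4 * N ≤ N ^ 3 := by
    have : 4 ≤ N ^ 2 := by nlinarith
    calc 4 * N ≤ N ^ 2 * N := Nat.mul_le_mul_right _ this
      _ = N ^ 3 := by ring
  fin_cases a <;> fin_cases b <;> fin_cases c <;> simp <;> omega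

theorem gens_card {N : ℕ} (hN : 2 ≤ N) : (gens N).card = 8 := by
  rw [gens, Finset.card_image_of_injective]
  · simp
  · rintro ⟨a, b, c⟩ ⟨a', b', c'⟩ h
    have h2 : 2 * N ≤ N ^ 2 := by nlinarith
    fin_cases a <;> fin_cases b <;> fin_cases c <;> fin_cases a' <;> fin_cases b' <;>
      fin_cases c' <;> first | rfl | (exfalso; simp at h <;> omega)

theorem gens_min {N : ℕ} (hN : 2 ≤ N) :
    IsMinGen (AddSubmonoid.closure (gens N : Set ℕ)) (gens N) := by
  refine ⟨rfl, fun G' hG' he => ?_⟩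
  obtain ⟨y, hy, hy'⟩ := Finset.exists_of_ssubset hG'
  have hyc : y ∈ AddSubmonoid.closure (G' : Set ℕ) := by
    rw [he]; exact AddSubmonoid.subset_closure hy
  have key : ∀ z ∈ AddSubmonoid.closure (G' : Set ℕ),
      z = 0 ∨ (2 * N ^ 3 + 2 * N ^ 2 + N ≤ z ∧
        (z ∈ G' ∨ 2 * (2 * N ^ 3 + 2 * N ^ 2 + N) ≤ z)) := by
    intro z hz
    induction hz using AddSubmonoid.closure_induction with
    | mem z hz => exact Or.inr ⟨(gens_bounds hN (hG'.subset hz)).1, Or.inl hz⟩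
    | zero => exact Or.inl rfl
    | add u v _ _ hu hv =>
      rcases hu with rfl | hu
      · simpa using hv
      rcases hv with rfl | hv
      · exact Or.inr (by simpa using hu)
      exact Or.inr ⟨by omega, Or.inr (by omega)⟩
  have hb := gens_bounds hN hy
  rcases key y hyc with h | ⟨-, h | h⟩
  · omega
  · exact hy' h
  · omega

theorem isPF_iff {N : ℕ} (hN : 2 ≤ N) (x : ℤ) :
    IsPF (AddSubmonoid.closure (gens N : Set ℕ)) x ↔ x = frob N ∨ Hole N x := by
  have hN' : (1 : ℤ) ≤ N := by omega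
  constructor
  · rintro ⟨h1, h2⟩
    rw [mem_iff] at h1
    rcases cover hN' x with h | h | h
    · exact absurd h h1
    · left
      by_contra hne
      obtain ⟨s, hs, hs'⟩ := (mem_iff N _).2 h
      have h3 := h2 s hs (by rintro rfl; apply hne; push_cast at hs'; omega)
      rw [mem_iff, hs', add_sub_cancel] at h3
      exact frob_not_inS hN' h3
    · exact Or.inr h
  · rintro (rfl | h)
    · refine ⟨by rw [mem_iff]; exact frob_not_inS hN', fun s _ hs0 => ?_⟩
      rw [mem_iff]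
      exact inS_of_gt hN' (by omega)
    · refine ⟨by rw [mem_iff]; exact hole_not_inS hN' h, fun s hs hs0 => ?_⟩
      rw [mem_iff]
      exact hole_add h ((mem_iff N _).1 ⟨s, hs, rfl⟩) (by exact_mod_cast hs0)

theorem hole_iff (N x : ℤ) :
    Hole N x ↔ x ∈ Finset.Ico (val N (N - 1) (N - 1) N 0) (val N (N - 1) (N - 1) N 0 + 2 * N) := by
  have e1 : ∀ j, val N (N - 1) (N - 1) N j = val N (N - 1) (N - 1) N 0 + j := by
    intro j; simp only [val]; ring
  have e2 : ∀ j, val N (N - 1) N 0 j = val N (N - 1) (N - 1) N 0 + N + j := by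
    intro j; simp only [val]; ring
  rw [Finset.mem_Ico]
  constructor
  · rintro ⟨j, h1, h2, rfl | rfl⟩
    · rw [e1 j]; omega
    · rw [e2 j]; omega
  · rintro ⟨h1, h2⟩
    by_cases h : x < val N (N - 1) (N - 1) N 0 + N
    · exact ⟨x - val N (N - 1) (N - 1) N 0, by omega, by omega, Or.inl (by rw [e1]; ring)⟩
    · exact ⟨x - val N (N - 1) (N - 1) N 0 - N, by omega, by omega, Or.inr (by rw [e2]; ring)⟩

/-- For every `N ≥ 2` the additive submonoid `Γ` of `ℕ` generated by `gens N` is a numerical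
semigroup, `gens N` is a minimal generating set with 8 elements, `Γ` is almost symmetric and has
exactly `2N + 1` pseudo-Frobenius numbers. -/
theorem result (N : ℕ) (hN : 2 ≤ N) :
    ∃ Γ : AddSubmonoid ℕ, (Γ : Set ℕ)ᶜ.Finite ∧ IsMinGen Γ (gens N) ∧ (gens N).card = 8 ∧
      AlmostSymmetric Γ ∧ {x : ℤ | IsPF Γ x}.encard = (2 * N + 1 : ℕ) := by
  have hN' : (1 : ℤ) ≤ N := by omega
  refine ⟨AddSubmonoid.closure (gens N : Set ℕ), ?_, gens_min hN, gens_card hN, ?_, ?_⟩
  · refine (SG_compl_finite hN').subset fun x hx hx' => hx ?_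
    obtain ⟨s, hs, hs'⟩ := (mem_iff N x).2 hx'
    obtain rfl : s = x := by exact_mod_cast hs'
    exact hs
  · refine ⟨frob N, ⟨by rw [Set.mem_setOf_eq, mem_iff]; exact frob_not_inS hN', fun y hy => ?_⟩,
      fun x hx => ?_⟩
    · by_contra hlt
      exact hy ((mem_iff N y).2 (inS_of_gt hN' (by omega)))
    · rw [mem_iff] at hx
      rcases cover hN' x with h | h | h
      · exact absurd h hx
      · exact Or.inl ((mem_iff N _).2 h)
      · exact Or.inr ⟨(isPF_iff hN _).2 (Or.inr h), (isPF_iff hN _).2 (Or.inr (hole_symm h))⟩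
  · have hset : {x : ℤ | IsPF (AddSubmonoid.closure (gens N : Set ℕ)) x} =
        ((insert (frob N) (Finset.Ico (val N (N - 1) (N - 1) N 0)
          (val N (N - 1) (N - 1) N 0 + 2 * N)) : Finset ℤ) : Set ℤ) := by
      ext x
      rw [Set.mem_setOf_eq, isPF_iff hN, hole_iff, Finset.mem_coe, Finset.mem_insert]
    have hnot : frob N ∉ Finset.Ico (val N (N - 1) (N - 1) N 0)
        (val N (N - 1) (N - 1) N 0 + 2 * N) := by
      rw [← hole_iff]
      intro h
      have := hole_pos hN' (hole_symm h)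
      omega
    rw [hset, Set.encard_coe_eq_coe_finsetCard, Finset.card_insert_of_notMem hnot, Int.card_Ico]
    have e : (val N (N - 1) (N - 1) N 0 + 2 * N - val N (N - 1) (N - 1) N 0).toNat = 2 * N := by
      omega
    rw [e]

end Pool.Agent.Results.MP_d25c28_al.EdimEight
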